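import Pool.Agent.H96.AL.Targets4

/-!
# DH: the points with the same hull are dense in the hull
-/

set_option autoImplicit false

open Topology Set Filter Real

namespace Pool.Agent.H89.AL

open Pool.Agent.H96.AL

theorem dh (hAC : T_AC) (hNB : T_NB) (hDN : T_DN) (hUN : T_UN) : T_DH := by
  intro X _ D hX hd x y hy ε hε
  by_contra hcon
  push Not at hcon
  obtain ⟨N, hN⟩ := hAC X D hX hd
  obtain ⟨-, -, -, hU⟩ := hUN X D hX
  have step : ∀ w : X, ∃ w' : X, (w ∈ hull x ∧ dist y w < ε) →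
      (w' ∈ hull x ∧ dist y w' < ε) ∧ hull w ⊂ hull w' := by
    intro w
    by_cases hw : w ∈ hull x ∧ dist y w < ε
    · obtain ⟨hwx, hwe⟩ := hw
      have hsub : hull w ⊆ hull x := (hU x).2.2.2 w hwx
      have hne : hull w ≠ hull x := hcon w hwe
      have hxw : x ∉ hull w := fun h => hne (Subset.antisymm hsub ((hU w).2.2.2 x h))
      have hcl := hDN X D hX x (hull w) (hU w).1 hxw hwx
      obtain ⟨ρ, hρ, hρ'⟩ := hNB X D hX hd w
      rw [Metric.mem_closure_iff] at hcl
      obtain ⟨w', ⟨hw1, hw2⟩, hw3⟩ := hcl (min ρ (ε - dist y w)) (lt_min hρ (by linarith))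
      refine ⟨w', fun _ => ⟨⟨hw1, ?_⟩, ?_⟩⟩
      · have h1 := lt_of_lt_of_le hw3 (min_le_right _ _)
        have h2 := dist_triangle y w w'
        linarith
      · have h1 : w ∈ hull w' := hρ' w' (lt_of_lt_of_le hw3 (min_le_left _ _))
        refine ⟨(hU w').2.2.2 w h1, fun h => hw2 (h (hU w').2.1)⟩
    · exact ⟨w, fun h => absurd h hw⟩
  choose f hf using step
  have hv : ∀ n : ℕ, (f^[n] y) ∈ hull x ∧ dist y (f^[n] y) < ε := by
    intro n
    induction n with
    | zero => exact ⟨hy, by simpa using hε⟩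
    | succ n ih =>
      rw [Function.iterate_succ_apply']
      exact (hf _ ih).1
  obtain ⟨i, -, hi⟩ := hN (fun n => f^[n] y)
  apply hi
  have h := (hf _ (hv i)).2
  rw [← Function.iterate_succ_apply' f i y] at h
  exact h

end Pool.Agent.H89.AL
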